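import Pool.Agent.helper46.T7.SpecC

set_option autoImplicit false

namespace Pool.Agent.T7

open Finset NumberField Pool.Agent.helper3.FT Pool.Agent.helper47.RA Pool.Agent.T5 Pool.Agent.T6
open Pool.Agent.helper26.T5 (nn LEMB LP HCL HGA LYT LAW)
open Pool.Agent.helper28.LT (rad)

/-- the sum over the integers `> W` -/
theorem CTA_sum (W : ℝ) (hW : 1 ≤ W) (P : Finset ℕ) (hP : ∀ p ∈ P, W < (p : ℝ)) :
    ∑ p ∈ P, 1 / (p : ℝ) ^ 2 ≤ 2 / W := by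
  have hk1 : 1 ≤ ⌊W⌋₊ := Nat.le_floor (by exact_mod_cast hW)
  have hkr : (1 : ℝ) ≤ (⌊W⌋₊ : ℝ) := by exact_mod_cast hk1
  have hkW : (⌊W⌋₊ : ℝ) ≤ W := Nat.floor_le (by linarith)
  have hWk : W < (⌊W⌋₊ : ℝ) + 1 := Nat.lt_floor_add_one W
  have hsub : P ⊆ Ioc ⌊W⌋₊ (⌊W⌋₊ + P.sup id) := by
    intro p hp
    rw [Finset.mem_Ioc]
    refine ⟨?_, ?_⟩
    · have h1 := hP p hp
      have h2 : (⌊W⌋₊ : ℝ) < (p : ℝ) := lt_of_le_of_lt hkW h1
      exact_mod_cast h2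
    · have h1 : p ≤ P.sup id := Finset.le_sup (f := id) hp
      omega
  have h1 : ∑ p ∈ P, 1 / (p : ℝ) ^ 2 ≤ ∑ p ∈ Ioc ⌊W⌋₊ (⌊W⌋₊ + P.sup id), 1 / (p : ℝ) ^ 2 :=
    Finset.sum_le_sum_of_subset_of_nonneg hsub (fun i _ _ => by positivity)
  have h2 := sum_Ioc_inv_sq_le_sub (α := ℝ) (k := ⌊W⌋₊) (n := ⌊W⌋₊ + P.sup id) (by omega) (by omega)
  have h3 : ∑ p ∈ Ioc ⌊W⌋₊ (⌊W⌋₊ + P.sup id), 1 / (p : ℝ) ^ 2 =
      ∑ i ∈ Ioc ⌊W⌋₊ (⌊W⌋₊ + P.sup id), ((i : ℝ) ^ 2)⁻¹ := by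
    refine Finset.sum_congr rfl fun i _ => ?_
    rw [one_div]
  have h4 : (0 : ℝ) ≤ ((⌊W⌋₊ + P.sup id : ℕ) : ℝ)⁻¹ := by positivity
  have h5 : ((⌊W⌋₊ : ℝ))⁻¹ ≤ 2 / W := by
    rw [inv_eq_one_div, div_le_div_iff₀ (by linarith) (by linarith)]
    linarith
  linarith

theorem CTA_gg (K : ℝ) (p : ℕ) (hp : p.Prime) :
    ∏ q ∈ p.primeFactors, gg K q (p.factorization q) = 2 * K * (1 / (p : ℝ) ^ 2) := by
  rw [hp.primeFactors, Finset.prod_singleton, hp.factorization_self]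
  unfold gg
  norm_num
  ring

theorem CTA : CTA_stmt := by
  intro hTD1
  obtain ⟨η₁, hη₁, hT⟩ := hTD1
  refine ⟨min (η₁ / 10) (1 / 100), lt_min (by linarith) (by norm_num), min_le_right _ _, ?_⟩
  obtain ⟨η, hηe⟩ : ∃ η : ℝ, η = min (η₁ / 10) (1 / 100) := ⟨_, rfl⟩
  rw [← hηe]
  have hη : 0 < η := by rw [hηe]; exact lt_min (by linarith) (by norm_num)
  have hηa : η ≤ η₁ / 10 := by rw [hηe]; exact min_le_left _ _
  have hηb : η ≤ 1 / 100 := by rw [hηe]; exact min_le_right _ _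
  intro κ A hκ hA
  obtain ⟨C₁, K, N₁, hC₁, hK, hT⟩ := hT κ A hκ hA
  refine ⟨4 * C₁ * K, max 1 (max ((2 * A) ^ (1 / η)) ((max N₁ 1) ^ 2)), by nlinarith, ?_⟩
  intro N Y Y₂ W hN hR hW F hF
  have hN1 : 1 ≤ N := le_trans (le_max_left _ _) hN
  have hN2 : (2 * A) ^ (1 / η) ≤ N := le_trans (le_trans (le_max_left _ _) (le_max_right _ _)) hN
  have hN3 : (max N₁ 1) ^ 2 ≤ N := le_trans (le_trans (le_max_right _ _) (le_max_right _ _)) hN
  have hN0 : 0 < N := by linarith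
  have hM1 : 1 ≤ max N₁ 1 := le_max_right _ _
  have hNη : 2 * A ≤ N ^ η := by
    have h1 := Real.rpow_le_rpow (by positivity) hN2 hη.le
    rw [← Real.rpow_mul (by linarith), one_div, inv_mul_cancel₀ hη.ne', Real.rpow_one] at h1
    exact h1
  obtain ⟨S, hS⟩ : ∃ S : ℝ, S = Y * Y₂ := ⟨_, rfl⟩
  have hS1 : N ^ (1 - η) ≤ S := by rw [hS]; exact hR.r4
  have hNp : 0 < N ^ (1 - η) := Real.rpow_pos_of_pos hN0 _
  have hSpos : 0 < S := lt_of_lt_of_le hNp hS1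
  have hY : 0 ≤ Y := by
    by_contra hneg
    push Not at hneg
    have h1 := hR.r1
    have h2 := hR.r2
    nlinarith
  -- the range of the primes
  have hpb : ∀ p : ℝ, 1 ≤ p → p ^ 2 * S ≤ A * N → p ^ 2 ≤ N ^ (2 * η) := by
    intro p hp hpS
    have h1 : p ^ 2 * N ^ (1 - η) ≤ A * N := le_trans (mul_le_mul_of_nonneg_left hS1 (by positivity)) hpS
    have h2 : A * N ≤ N ^ η * N := mul_le_mul_of_nonneg_right (by linarith) hN0.le
    have h3 : N ^ η * N = N ^ (2 * η) * N ^ (1 - η) := by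
      rw [← Real.rpow_add hN0, show 2 * η + (1 - η) = η + 1 by ring, Real.rpow_add hN0, Real.rpow_one]
    have h4 : p ^ 2 * N ^ (1 - η) ≤ N ^ (2 * η) * N ^ (1 - η) := by linarith
    exact le_of_mul_le_mul_right h4 hNp
  have hpc : ∀ p : ℝ, 1 ≤ p → p ^ 2 * S ≤ A * N → p ≤ N ^ η := by
    intro p hp hpS
    have h1 := hpb p hp hpS
    have h2 : N ^ (2 * η) = (N ^ η) ^ 2 := by
      rw [← Real.rpow_natCast (N ^ η) 2, ← Real.rpow_mul hN0.le]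
      norm_num
      ring_nf
    rw [h2] at h1
    exact (pow_le_pow_iff_left₀ (by linarith) (by positivity) (by norm_num)).mp h1
  classical
  -- one prime
  have hone : ∀ p : ℕ, p.Prime → (p : ℝ) ^ 2 * S ≤ A * N →
      ((F.filter fun t => (p : ℤ) ^ 2 ∣ dis t).card : ℝ) ≤ 2 * C₁ * K * S * (1 / (p : ℝ) ^ 2) := by
    intro p hp hpS
    have hp1 : (1 : ℝ) ≤ p := by exact_mod_cast hp.one_lt.le
    have hp2 : (0 : ℝ) < (p : ℝ) ^ 2 := by positivity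
    have h1 := hpb p hp1 hpS
    have h2 := hpc p hp1 hpS
    have hN'1 : N ^ (1 - 2 * η) ≤ N / (p : ℝ) ^ 2 := by
      rw [le_div_iff₀ hp2]
      have h3 : N ^ (1 - 2 * η) * N ^ (2 * η) = N := by
        rw [← Real.rpow_add hN0, show 1 - 2 * η + 2 * η = (1 : ℝ) by ring, Real.rpow_one]
      calc N ^ (1 - 2 * η) * (p : ℝ) ^ 2 ≤ N ^ (1 - 2 * η) * N ^ (2 * η) :=
            mul_le_mul_of_nonneg_left h1 (Real.rpow_nonneg hN0.le _)
        _ = N := h3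
    have hN'2 : max N₁ 1 ≤ N ^ (1 - 2 * η) := by
      have h3 : N ^ (1 / 2 : ℝ) ≤ N ^ (1 - 2 * η) := Real.rpow_le_rpow_of_exponent_le hN1 (by linarith)
      have h4 : max N₁ 1 ≤ N ^ (1 / 2 : ℝ) := by
        rw [← Real.sqrt_eq_rpow]
        exact Real.le_sqrt_of_sq_le hN3
      linarith
    have hN'3 : N₁ ≤ N / (p : ℝ) ^ 2 := le_trans (le_trans (le_max_left _ _) hN'2) hN'1
    have hN'4 : 1 ≤ N / (p : ℝ) ^ 2 := le_trans (le_trans (le_max_right _ _) hN'2) hN'1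
    have hN'5 : N / (p : ℝ) ^ 2 ≤ N := div_le_self hN0.le (by nlinarith)
    have hpow : N ^ η ≤ (N / (p : ℝ) ^ 2) ^ η₁ := by
      have h3 : N ^ η ≤ N ^ ((1 - 2 * η) * η₁) := by
        refine Real.rpow_le_rpow_of_exponent_le hN1 ?_
        nlinarith
      have h4 : N ^ ((1 - 2 * η) * η₁) = (N ^ (1 - 2 * η)) ^ η₁ := Real.rpow_mul hN0.le _ _
      have h5 : (N ^ (1 - 2 * η)) ^ η₁ ≤ (N / (p : ℝ) ^ 2) ^ η₁ :=
        Real.rpow_le_rpow (Real.rpow_nonneg hN0.le _) hN'1 hη₁.le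
      linarith
    have hS' : S ≤ A * (N / (p : ℝ) ^ 2) := by
      rw [mul_div_assoc', le_div_iff₀ hp2]
      linarith
    have hr4 : (N / (p : ℝ) ^ 2) ^ (1 - η₁) ≤ S := by
      rcases le_or_gt η₁ 1 with h | h
      · have h3 : (N / (p : ℝ) ^ 2) ^ (1 - η₁) ≤ N ^ (1 - η₁) :=
          Real.rpow_le_rpow (by linarith) hN'5 (by linarith)
        have h4 : N ^ (1 - η₁) ≤ N ^ (1 - η) := Real.rpow_le_rpow_of_exponent_le hN1 (by linarith)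
        linarith
      · have h3 : (N / (p : ℝ) ^ 2) ^ (1 - η₁) ≤ 1 :=
          Real.rpow_le_one_of_one_le_of_nonpos hN'4 (by linarith)
        have h4 : 1 ≤ N ^ (1 - η) := Real.one_le_rpow hN1 (by linarith)
        linarith
    have h6 := hT (N / (p : ℝ) ^ 2) Y Y₂ hN'3 hR.r1
      (le_trans hR.r2 (mul_le_mul_of_nonneg_right hpow hY)) (by rw [← hS]; exact hS')
      (by rw [← hS]; exact hr4) p hp.one_lt.le (le_trans h2 hpow) (F.filter fun t => (p : ℤ) ^ 2 ∣ dis t)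
      (by
        intro t ht
        rw [Finset.mem_filter] at ht
        refine ⟨?_, ht.2⟩
        rw [div_mul_cancel₀ N hp2.ne']
        exact (hF t ht.1).1)
    rw [CTA_gg K p hp, ← hS] at h6
    calc ((F.filter fun t => (p : ℤ) ^ 2 ∣ dis t).card : ℝ) ≤ C₁ * S * (2 * K * (1 / (p : ℝ) ^ 2)) := h6
      _ = 2 * C₁ * K * S * (1 / (p : ℝ) ^ 2) := by ring
  -- the union
  obtain ⟨M, hM⟩ : ∃ M : ℕ, M = ⌈N ^ η⌉₊ := ⟨_, rfl⟩
  obtain ⟨P, hP⟩ : ∃ P : Finset ℕ, P = (range (M + 1)).filter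
      (fun p : ℕ => p.Prime ∧ W < (p : ℝ) ∧ (p : ℝ) ^ 2 * S ≤ A * N) := ⟨_, rfl⟩
  have hPm : ∀ p ∈ P, p.Prime ∧ W < (p : ℝ) ∧ (p : ℝ) ^ 2 * S ≤ A * N := by
    intro p hp
    rw [hP, Finset.mem_filter] at hp
    exact hp.2
  have hsub : F ⊆ P.biUnion (fun p => F.filter fun t => (p : ℤ) ^ 2 ∣ dis t) := by
    intro t ht
    obtain ⟨_, p, hp, hWp, hpS, hpd⟩ := hF t ht
    rw [← hS] at hpS
    rw [Finset.mem_biUnion]
    refine ⟨p, ?_, Finset.mem_filter.mpr ⟨ht, hpd⟩⟩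
    rw [hP, Finset.mem_filter, Finset.mem_range]
    refine ⟨?_, hp, hWp, hpS⟩
    have hp1 : (1 : ℝ) ≤ p := by exact_mod_cast hp.one_lt.le
    have h1 := hpc p hp1 hpS
    have h2 : (p : ℝ) ≤ (M : ℝ) := by
      rw [hM]
      exact le_trans h1 (Nat.le_ceil _)
    have h3 : p ≤ M := by exact_mod_cast h2
    omega
  have h1 : F.card ≤ ∑ p ∈ P, (F.filter fun t => (p : ℤ) ^ 2 ∣ dis t).card :=
    le_trans (Finset.card_le_card hsub) Finset.card_biUnion_le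
  have h2 : (F.card : ℝ) ≤ ∑ p ∈ P, ((F.filter fun t => (p : ℤ) ^ 2 ∣ dis t).card : ℝ) := by
    exact_mod_cast h1
  have h3 : ∑ p ∈ P, ((F.filter fun t => (p : ℤ) ^ 2 ∣ dis t).card : ℝ) ≤
      ∑ p ∈ P, 2 * C₁ * K * S * (1 / (p : ℝ) ^ 2) :=
    Finset.sum_le_sum fun p hp => hone p (hPm p hp).1 (hPm p hp).2.2
  rw [← Finset.mul_sum] at h3
  have h4 := CTA_sum W hW P (fun p hp => (hPm p hp).2.1)
  have h5 : 2 * C₁ * K * S * ∑ p ∈ P, 1 / (p : ℝ) ^ 2 ≤ 2 * C₁ * K * S * (2 / W) :=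
    mul_le_mul_of_nonneg_left h4 (by positivity)
  have h6 : 2 * C₁ * K * S * (2 / W) = 4 * C₁ * K / W * S := by ring
  rw [← hS]
  linarith

end Pool.Agent.T7
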